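import Pool.Agent.ASO.Stmts5
import Pool.Agent.ASO.Stmts7
import Pool.Agent.ASO.Stmts8
import Pool.Agent.ASO.Stmts3

/-!
# ASO, row K2B (helper7)
-/

open scoped BigOperators

noncomputable section

namespace Pool.Agent.PP.SO.H7

open Pool.Agent.Helper51_AWC Pool.Agent.Helper79_WRA Pool.Agent.PP Pool.Agent.PP.KF
open Pool.Agent.PP.K9 Pool.Agent.PP.K9.H97 Pool.Agent.PP.H75 Pool.Agent.PP.T3

attribute [local instance] Ideal.Quotient.field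

theorem int_dvd {ℓ : ℕ} [Fact ℓ.Prime] {a : ℤ} {q : ℚ} (hq : q ∈ SOR.Rl ℓ)
    (h : (a : ℚ) = 1 + ℓ * q) : (ℓ : ℤ) ∣ a - 1 := by
  have hp : Prime (ℓ : ℤ) := Nat.prime_iff_prime_int.1 Fact.out
  have hd : ¬ ℓ ∣ q.den := hq
  have h1 : (q.num : ℚ) = q * q.den := (Rat.mul_den_eq_num q).symm
  have h2 : ((a - 1) * q.den : ℚ) = ℓ * q.num := by
    rw [h1, h]
    ring
  have h3 : (a - 1) * (q.den : ℤ) = ℓ * q.num := by exact_mod_cast h2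
  have h4 : (ℓ : ℤ) ∣ (a - 1) * (q.den : ℤ) := ⟨_, h3⟩
  rcases hp.dvd_or_dvd h4 with h5 | h5
  · exact h5
  · exact absurd (Int.natCast_dvd_natCast.1 h5) hd

theorem k2b (hK : KcmStmt) (hC : CmpStmt) (hP : PexStmt) (hJ : CjtStmt) : K2bStmt := by
  intro ℓ _ M _ hM h5 V₀ G _ _ _ _ E₀ hFr B hB
  have h2 : ℓ ≠ 2 := by omega
  have htop : (⊤ : Subgroup V₀) ≠ ⊥ := by
    intro h
    have h1 : Nat.card (⊤ : Subgroup V₀) = 1 := by rw [h]; exact Subgroup.card_bot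
    rw [Subgroup.card_top, hFr.cd] at h1
    have : 5 ^ 2 ≤ ℓ ^ 2 := Nat.pow_le_pow_left h5 2
    omega
  have hUtop : B.U ⊤ = 1 := by
    obtain ⟨q, hq, hU⟩ := hB.un ⊤ htop
    have key : ∀ a : ℤ, (a = 0 ∨ a = 1 ∨ a = -1) → B.U ⊤ = (a : ℚ) → B.U ⊤ = 1 := by
      intro a ha hUa
      rw [hUa] at hU
      have h3 := int_dvd hq hU
      rcases ha with rfl | rfl | rfl
      · exfalso
        have h4 := Int.le_of_dvd (by norm_num) ((dvd_neg (a := (ℓ : ℤ))).2 h3)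
        omega
      · rw [hUa]
        norm_num
      · exfalso
        have h4 := Int.le_of_dvd (by norm_num) ((dvd_neg (a := (ℓ : ℤ))).2 h3)
        omega
    by_cases hx : ((Nat.card (B.C ⊤) : ℚ) * B.D ⊤) = 0
    · refine key 0 (Or.inl rfl) ?_
      unfold Bk.U
      rw [hx, div_zero]
      simp
    · refine key (B.S ⊤) ?_ ?_
      · rcases hB.sg ⊤ htop with h | h
        · exact Or.inr (Or.inl h)
        · exact Or.inr (Or.inr h)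
      · unfold Bk.U
        rw [mul_assoc, mul_div_assoc, div_self hx, mul_one]
  have hinv : ∀ W, W ≠ ⊥ → ∀ σ ∈ E₀, B.U (W.map (σ : V₀ ≃* V₀).toMonoidHom) = B.U W := by
    intro W hW σ hσ
    obtain ⟨t, ht, ht2⟩ := hB.sur σ hσ
    exact ((hJ ℓ M hM h2 V₀ G E₀ hFr B hB σ hσ t ht ht2 W).2.2.2.2.2 hW).2.2
  obtain ⟨r, m, hr, hm⟩ := hP ℓ G
  obtain ⟨K, hKK⟩ := hK ℓ M hM h5 V₀ E₀ hFr (ℓ ^ r)
  obtain ⟨G', _, _, B', m', hB', hm', hcard, hcong⟩ := hC ℓ M hM h2 V₀ E₀ hFr K B.U hUtop hB.un hinv r hr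
  have h6 := hKK G G' B B' m m' hB hB' hm hm' (fun W hW => by
    obtain ⟨q, hq, hq2⟩ := hcong W hW
    refine ⟨-q, (SOR.Rl ℓ).neg_mem hq, ?_⟩
    rw [mul_neg, ← hq2]
    ring)
  rw [hcard] at h6
  exact h6

end Pool.Agent.PP.SO.H7
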